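import Pool.Agent.Helper66_KF.Stmts
import Pool.Agent.Helper75_PP.Corner

/-!
# Squad KF, module SQA: the sum of the squares of `χ(u b)` over all `χ`
-/

open scoped BigOperators

set_option linter.unusedSectionVars false

noncomputable section

namespace Pool.Agent.PP.KF.H71

open Pool.Agent.Helper51_AWC Pool.Agent.Helper79_WRA Pool.Agent.PP

attribute [local instance] Ideal.Quotient.field

/-! ## 1. Matrices of multiplications on the group ring -/

section mats

variable {F : Type} [Field F] {G : Type} [Group G] [Fintype G] [DecidableEq G]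

/-- the matrix of the left multiplication by `a` -/
def Lm (a : G → F) : Matrix G G F := Matrix.of fun x y => a (x * y⁻¹)

/-- the matrix of the right multiplication by `b` -/
def Rm (b : G → F) : Matrix G G F := Matrix.of fun x y => b (y⁻¹ * x)

theorem Lm_mul (a a' : G → F) : Lm a * Lm a' = Lm (mulF a a') := by
  ext x y
  simp only [Lm, Matrix.mul_apply, Matrix.of_apply, mulF, finsum_eq_sum_of_fintype]
  refine Fintype.sum_equiv ((Equiv.inv G).trans (Equiv.mulLeft x)) _ _ fun z => ?_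
  simp [mul_assoc]

theorem Rm_mul (b b' : G → F) : Rm b * Rm b' = Rm (mulF b' b) := by
  ext x y
  simp only [Rm, Matrix.mul_apply, Matrix.of_apply, mulF, finsum_eq_sum_of_fintype]
  refine Fintype.sum_equiv (Equiv.mulLeft y⁻¹) _ _ fun z => ?_
  simp [mul_assoc, mul_comm]

theorem Lm_Rm (a b : G → F) (x y : G) :
    (Lm a * Rm b) x y = ∑ g, a g * b (y⁻¹ * g⁻¹ * x) := by
  simp only [Lm, Rm, Matrix.mul_apply, Matrix.of_apply]
  refine Fintype.sum_equiv ((Equiv.inv G).trans (Equiv.mulLeft x)) _ _ fun z => ?_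
  simp [mul_assoc]

theorem Lm_comm_Rm (a b : G → F) : Rm b * Lm a = Lm a * Rm b := by
  ext x y
  rw [Lm_Rm]
  simp only [Lm, Rm, Matrix.mul_apply, Matrix.of_apply]
  refine Fintype.sum_equiv (Equiv.mulRight y⁻¹) _ _ fun z => ?_
  simp [mul_comm]

/-- the matrix of `x ↦ a x b` -/
def Km (a b : G → F) : Matrix G G F := Lm a * Rm b

theorem Km_apply (a b : G → F) (x y : G) : Km a b x y = ∑ g, a g * b (y⁻¹ * g⁻¹ * x) :=
  Lm_Rm a b x y

theorem Km_mul (a b a' b' : G → F) : Km a b * Km a' b' = Km (mulF a a') (mulF b' b) := by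
  unfold Km
  rw [← Lm_mul, ← Rm_mul, Matrix.mul_assoc, ← Matrix.mul_assoc (Rm b), Lm_comm_Rm]
  simp only [Matrix.mul_assoc]

theorem Km_dl (z : G) (x y : G) :
    Km (dl F z) (dl F z) x y = if y = z⁻¹ * x * z⁻¹ then 1 else 0 := by
  rw [Km_apply, Finset.sum_eq_single z]
  · rw [dl, if_pos rfl, one_mul, dl]
    have : (y⁻¹ * z⁻¹ * x = z) ↔ y = z⁻¹ * x * z⁻¹ := by
      constructor
      · intro h
        calc y = y * z * z⁻¹ := by group
          _ = y * (y⁻¹ * z⁻¹ * x) * z⁻¹ := by rw [h]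
          _ = z⁻¹ * x * z⁻¹ := by group
      · rintro rfl
        group
    by_cases h : y = z⁻¹ * x * z⁻¹
    · rw [if_pos (this.2 h), if_pos h]
    · rw [if_neg (fun h' => h (this.1 h')), if_neg h]
  · intro t _ ht
    rw [dl, if_neg ht, zero_mul]
  · intro h
    exact absurd (Finset.mem_univ _) h

theorem Km_one : Km (dl F (1 : G)) (dl F (1 : G)) = 1 := by
  ext x y
  rw [Km_dl, Matrix.one_apply]
  simp [eq_comm]

/-- the block of the complement of the subgroup `C` -/
def sb (C : Subgroup G) (A : Matrix G G F) : Matrix {g : G // g ∉ C} {g : G // g ∉ C} F :=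
  A.submatrix Subtype.val Subtype.val

/-- block diagonal matrices -/
def BD (C : Subgroup G) (A : Matrix G G F) : Prop := ∀ x y, x ∈ C → y ∉ C → A x y = 0

theorem BD_Km (C : Subgroup G) {a b : G → F} (ha : ∀ g, g ∉ C → a g = 0)
    (hb : ∀ g, g ∉ C → b g = 0) : BD C (Km a b) := by
  intro x y hx hy
  rw [Km_apply]
  refine Finset.sum_eq_zero fun g _ => ?_
  by_cases hg : g ∈ C
  · rw [hb, mul_zero]
    intro h
    apply hy
    have h1 := C.mul_mem h (C.mul_mem (C.inv_mem hx) hg)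
    have h2 : y⁻¹ * g⁻¹ * x * (x⁻¹ * g) = y⁻¹ := by group
    rw [h2] at h1
    simpa using C.inv_mem h1
  · rw [ha g hg, zero_mul]

theorem sb_mul (C : Subgroup G) [DecidablePred (· ∈ C)] [Fintype {g : G // g ∉ C}]
    (A B : Matrix G G F) (hB : BD C B) :
    sb C (A * B) = sb C A * sb C B := by
  ext x y
  simp only [sb, Matrix.submatrix_apply, Matrix.mul_apply]
  rw [← Finset.sum_filter_add_sum_filter_not Finset.univ (fun g => g ∈ C)]
  rw [Finset.sum_eq_zero, zero_add]
  · exact (Finset.sum_subtype _ (by simp) (fun z => A x z * B z y))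
  · intro z hz
    rw [hB z y (Finset.mem_filter.1 hz).2 y.2, mul_zero]

end mats

/-! ## 2. The trace of a fixed point free permutation times a projection -/

section rep

/-- representatives of the orbits of a fixed point free involution -/
theorem exists_half {n : Type} [Fintype n] (σ : n → n) (hσ : ∀ x, σ (σ x) = x)
    (hf : ∀ x, σ x ≠ x) : ∃ A : Set n, ∀ x, (x ∈ A ∧ σ x ∉ A) ∨ (x ∉ A ∧ σ x ∈ A) := by
  let e := Fintype.equivFin n
  refine ⟨{x | e x < e (σ x)}, fun x => ?_⟩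
  simp only [Set.mem_setOf_eq, hσ]
  have h : e x ≠ e (σ x) := fun h => hf x (e.injective h).symm
  rcases lt_or_gt_of_ne h with h | h
  · exact Or.inl ⟨h, not_lt.2 h.le⟩
  · exact Or.inr ⟨not_lt.2 h.le, h⟩

variable {M : Ideal (integralClosure ℤ ℂ)} [hM : M.IsMaximal] {n : Type} [Fintype n]

theorem map_rr_mul {A B : Matrix n n ℂ} (hA : ∀ i j, A i j ∈ RM M) (hB : ∀ i j, B i j ∈ RM M) :
    (A * B).map (rr M) = A.map (rr M) * B.map (rr M) := by
  ext i j
  simp only [Matrix.map_apply, Matrix.mul_apply]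
  rw [rr_sum _ _ fun z _ => (RM M).mul_mem (hA i z) (hB z j)]
  exact Finset.sum_congr rfl fun z _ => rr_mul (hA i z) (hB z j)

theorem trm_half (trm : TrmStmt) (h2 : (2 : integralClosure ℤ ℂ) ∈ M) [DecidableEq n]
    (P U : Matrix n n ℂ) (hP : ∀ i j, P i j ∈ RM M) (σ : n → n) (hσ : ∀ x, σ (σ x) = x)
    (hf : ∀ x, σ x ≠ x) (hU : ∀ x y, U x y = if y = σ x then 1 else 0) (hPP : P * P = P)
    (hUP : U * P = P * U) : (U * P).trace = 0 := by
  classical
  have hU' : ∀ i j, U i j ∈ RM M := by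
    intro i j
    rw [hU]
    split_ifs
    · exact (RM M).one_mem
    · exact (RM M).zero_mem
  have hUU : U * U = 1 := by
    ext x y
    rw [Matrix.mul_apply, Finset.sum_eq_single (σ x)]
    · rw [hU, hU, if_pos rfl, one_mul, hσ, Matrix.one_apply]
      simp [eq_comm]
    · intro z _ hz
      rw [hU, if_neg hz, zero_mul]
    · intro h
      exact absurd (Finset.mem_univ _) h
  refine trm M h2 n P U hP hU' hPP hUU hUP fun v hv1 hv2 => ?_
  have hUv : ∀ (v : n → FF M) (x : n), (U.map (rr M)).mulVec v x = v (σ x) := by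
    intro v x
    rw [Matrix.mulVec, dotProduct, Finset.sum_eq_single (σ x)]
    · rw [Matrix.map_apply, hU, if_pos rfl, rr_one, one_mul]
    · intro z _ hz
      rw [Matrix.map_apply, hU, if_neg hz, rr_zero, zero_mul]
    · intro h
      exact absurd (Finset.mem_univ _) h
  obtain ⟨A, hA⟩ := exists_half σ hσ hf
  let v0 : n → FF M := fun x => if x ∈ A then v x else 0
  have hv0 : v = v0 + (U.map (rr M)).mulVec v0 := by
    funext x
    rw [Pi.add_apply, hUv]
    have h1 : v (σ x) = v x := by rw [← hUv v x, hv2]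
    rcases hA x with ⟨h3, h4⟩ | ⟨h3, h4⟩
    · simp only [v0]
      rw [if_pos h3, if_neg h4, add_zero]
    · simp only [v0]
      rw [if_neg h3, if_pos h4, zero_add, h1]
  refine ⟨(P.map (rr M)).mulVec v0, ?_, ?_⟩
  · rw [Matrix.mulVec_mulVec, ← map_rr_mul hP hP, hPP]
  · rw [Matrix.mulVec_mulVec, ← map_rr_mul hU' hP, hUP, map_rr_mul hP hU',
      ← Matrix.mulVec_mulVec, ← Matrix.mulVec_add, ← hv0, hv1]

end rep

/-! ## 3. The theorem -/

theorem sqa (trm : TrmStmt) (idm : IdmStmt) (trc : TrcStmt) : SqaStmt := by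
  intro M _ hM G _ _ u hu b hb
  classical
  have := Fintype.ofFinite G
  obtain ⟨h1, h2, -⟩ := idm M (Cu u) b hb
  have hbh : eh M b 1 = (Nat.card (Cu u) : ℂ)⁻¹ * ∑ᶠ χ ∈ IrrE M b, χ 1 ^ 2 := by
    rw [eh]
    simp only [inv_one, pow_two]
  generalize eh M b = bh at h1 h2 hbh ⊢
  set B : G → ℂ := PP.ext0 (Cu u) bh with hB
  have hBs : ∀ g, g ∉ Cu u → B g = 0 := by
    intro g hg
    rw [hB, PP.ext0, dif_neg hg]
  have hBa : ∀ t : Cu u, B t = bh t := by
    intro t
    rw [hB, PP.ext0, dif_pos t.2]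
  have hui : u⁻¹ = u := inv_eq_of_mul_eq_one_left hu.sq
  have huC : u ∈ Cu u := by
    rw [Subgroup.mem_centralizer_iff]
    intro h hh
    rw [Set.mem_singleton_iff.1 hh]
  have hcm : ∀ {c : G}, c ∈ Cu u → c * u = u * c := by
    intro c hc
    exact ((Subgroup.mem_centralizer_iff.1 hc) u rfl).symm
  have hBR : ∀ g, B g ∈ RM M := by
    intro g
    by_cases hg : g ∈ Cu u
    · rw [hBa ⟨g, hg⟩]
      exact (h1 _).1
    · rw [hBs g hg]
      exact (RM M).zero_mem
  have hBB : mulF B B = B := by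
    have e1 := H75.mulF_res (Cu u) B hBs
    have e2 : (fun t : Cu u => B t) = bh := funext hBa
    rw [e2, h2.2] at e1
    funext x
    by_cases hx : x ∈ Cu u
    · have := congrFun e1 ⟨x, hx⟩
      rw [hBa ⟨x, hx⟩]
      exact this
    · rw [H75.mulF_supp (Cu u) hBs hBs x hx, hBs x hx]
  have hBc : ∀ c ∈ Cu u, ∀ x, B (c * x * c⁻¹) = B x := by
    intro c hc x
    by_cases hx : x ∈ Cu u
    · have := h2.1 ⟨x, hx⟩ ⟨c, hc⟩
      rw [← hBa, ← hBa] at this
      exact this
    · rw [hBs x hx, hBs]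
      intro h
      apply hx
      have := (Cu u).mul_mem ((Cu u).mul_mem ((Cu u).inv_mem hc) h) hc
      have e : c⁻¹ * (c * x * c⁻¹) * c = x := by group
      rwa [e] at this
  set w : G → ℂ := ub u bh with hw
  have hwa : ∀ g, w g = B (u⁻¹ * g) := fun g => rfl
  have hw1 : mulF (dl ℂ u) B = w := by
    funext g
    rw [H75.mulF_dl_left, hwa]
  have hw2 : mulF B (dl ℂ u) = w := by
    funext g
    rw [H75.mulF_dl_right, hwa, ← hBc u⁻¹ ((Cu u).inv_mem huC) (g * u⁻¹)]
    congr 1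
    group
  have hds : ∀ g, g ∉ Cu u → dl ℂ u g = 0 := by
    intro g hg
    rw [dl, if_neg]
    rintro rfl
    exact hg huC
  have hL : ∑ᶠ χ ∈ Irr G, chv w χ ^ 2 = ∑ x, Km w w x x := by
    simp only [pow_two]
    rw [trc G w w, finsum_eq_sum_of_fintype]
    refine Finset.sum_congr rfl fun x _ => ?_
    rw [finsum_eq_sum_of_fintype, Km_apply]
  rw [hL, ← Finset.sum_filter_add_sum_filter_not Finset.univ (fun g => g ∈ Cu u)]
  -- the complement of the centraliser
  have hc : ∑ x ∈ Finset.univ.filter (fun g => ¬ g ∈ Cu u), Km w w x x = 0 := by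
    let σ : {g : G // g ∉ Cu u} → {g : G // g ∉ Cu u} := fun x => ⟨u⁻¹ * x * u⁻¹, by
      intro h
      apply x.2
      have := (Cu u).mul_mem ((Cu u).mul_mem huC h) huC
      have e : u * (u⁻¹ * x * u⁻¹) * u = (x : G) := by group
      rwa [e] at this⟩
    have key := trm_half trm hM (sb (Cu u) (Km B B)) (sb (Cu u) (Km (dl ℂ u) (dl ℂ u))) ?_ σ
      ?_ ?_ ?_ ?_ ?_
    · rw [← sb_mul _ _ _ (BD_Km _ hBs hBs), Km_mul, hw1, hw2] at key
      rw [Finset.sum_subtype (p := fun g => g ∉ Cu u) _ (by simp) (fun x => Km w w x x)]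
      exact key
    · intro i j
      rw [sb, Matrix.submatrix_apply, Km_apply]
      exact Subring.sum_mem _ fun g _ => (RM M).mul_mem (hBR _) (hBR _)
    · intro x
      apply Subtype.ext
      change u⁻¹ * (u⁻¹ * x * u⁻¹) * u⁻¹ = (x : G)
      have e : u⁻¹ * (u⁻¹ * x * u⁻¹) * u⁻¹ = (u * u)⁻¹ * x * (u * u)⁻¹ := by group
      rw [e, hu.sq]
      simp
    · intro x hx
      apply x.2
      have e : u⁻¹ * (x : G) * u⁻¹ = x := congrArg Subtype.val hx
      rw [Subgroup.mem_centralizer_iff]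
      intro h hh
      rw [Set.mem_singleton_iff.1 hh]
      rw [hui] at e
      calc u * (x : G) = u * x * (u * u) := by rw [hu.sq, mul_one]
        _ = (u * x * u) * u := by group
        _ = x * u := by rw [e]
    · intro x y
      rw [sb, Matrix.submatrix_apply, Km_dl]
      by_cases h : y = σ x
      · rw [if_pos h, if_pos (by rw [h])]
      · rw [if_neg h, if_neg (fun h' => h (Subtype.ext h'))]
    · rw [← sb_mul _ _ _ (BD_Km _ hBs hBs), Km_mul, hBB]
    · rw [← sb_mul _ _ _ (BD_Km _ hBs hBs), ← sb_mul _ _ _ (BD_Km _ hds hds), Km_mul, Km_mul,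
        hw1, hw2]
  rw [hc, add_zero]
  -- the centraliser
  have hS : ∑ g, w g * w g⁻¹ = bh 1 := by
    have e1 : mulF B B 1 = bh 1 := by
      rw [hBB]
      exact hBa 1
    rw [← e1, mulF, finsum_eq_sum_of_fintype]
    refine Fintype.sum_equiv (Equiv.mulLeft u⁻¹) _ _ fun g => ?_
    rw [hwa, hwa, Equiv.coe_mulLeft]
    congr 1
    rw [← hBc u huC ((u⁻¹ * g)⁻¹ * 1)]
    congr 1
    rw [hui]
    have e : u * ((u * g)⁻¹ * 1) * u = u * g⁻¹ * (u⁻¹ * u) := by group
    rw [e]
    simp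
  have hC : ∀ x ∈ Finset.univ.filter (fun g => g ∈ Cu u), Km w w x x = bh 1 := by
    intro x hx
    have hx' : x ∈ Cu u := (Finset.mem_filter.1 hx).2
    rw [Km_apply, ← hS]
    refine Finset.sum_congr rfl fun g _ => ?_
    congr 1
    rw [hwa, hwa, ← hBc x hx' (u⁻¹ * (x⁻¹ * g⁻¹ * x))]
    congr 1
    have e : x * u⁻¹ = u⁻¹ * x := by
      rw [hui, hcm hx']
    calc x * (u⁻¹ * (x⁻¹ * g⁻¹ * x)) * x⁻¹ = (x * u⁻¹) * x⁻¹ * g⁻¹ := by group
      _ = u⁻¹ * g⁻¹ := by rw [e]; group
  rw [Finset.sum_congr rfl hC, Finset.sum_const, hbh, nsmul_eq_mul]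
  have hcard : (Finset.univ.filter (fun g => g ∈ Cu u)).card = Nat.card (Cu u) := by
    rw [Nat.card_eq_fintype_card, Fintype.card_subtype]
  rw [hcard, ← mul_assoc, mul_inv_cancel₀, one_mul]
  exact Nat.cast_ne_zero.2 Nat.card_pos.ne'

end Pool.Agent.PP.KF.H71
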